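import Pool.Agent.SGL.StmtsS
import Pool.Agent.Helper40_SGD.ARC

/-!
# Squad SGL (MP_41797f_co), row PAB
-/

noncomputable section

namespace Pool.Agent.SGL.H69

open Pool.Agent.SGE Pool.Agent.SGP Pool.Agent.SGY Pool.Agent.SGD Pool.Agent.SGL

/-- two chains of a relation with unique successors, with the same ends -/
theorem eq_chain {V : Type} {G : V → V → Prop} (hG : ∀ x y z, G x y → G x z → y = z) (q : V) :
    ∀ (T₁ T₂ : List V) (p : V), (p :: T₁).IsChain G → (p :: T₂).IsChain G →
      (p :: T₁).getLast? = some q → (p :: T₂).getLast? = some q →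
      (p :: T₁).Nodup → (p :: T₂).Nodup → T₁ = T₂ := by
  intro T₁
  induction T₁ with
  | nil =>
    intro T₂ p _ _ h3 h4 _ h6
    rw [List.getLast?_singleton, Option.some.injEq] at h3
    subst h3
    cases T₂ with
    | nil => rfl
    | cons t T =>
      exfalso
      rw [List.getLast?_cons_cons] at h4
      rw [List.nodup_cons] at h6
      exact h6.1 (List.mem_of_getLast? h4)
  | cons r R ih =>
    intro T₂ p h1 h2 h3 h4 h5 h6
    cases T₂ with
    | nil =>
      exfalso
      rw [List.getLast?_singleton, Option.some.injEq] at h4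
      subst h4
      rw [List.getLast?_cons_cons] at h3
      rw [List.nodup_cons] at h5
      exact h5.1 (List.mem_of_getLast? h3)
    | cons t T =>
      rw [List.isChain_cons_cons] at h1 h2
      have h7 := hG _ _ _ h1.1 h2.1
      subst h7
      rw [List.getLast?_cons_cons] at h3 h4
      rw [List.nodup_cons] at h5 h6
      rw [ih T r h1.2 h2.2 h3 h4 h5.2 h6.2]

/-- **PAB** -/
theorem pab : PabStmt := by
  intro V _ a b c E F K C₁ C₂ h C hc0 hca hcn hch
  -- the fan of the whole triangle at `b`
  have hf : Fan E F c b a := by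
    have h1 := h.nt.bd
    have h2 : b :: ([a, c, b] ++ [a]) = [b, a] ++ c :: b :: a :: [] := by simp
    rw [h2] at h1
    exact H40.tri_mid _ _ _ _ _ h1
  obtain ⟨l, hl1, hl2, hl3, hl4, hl5, -⟩ := hf
  have hG : ∀ x y z, F b x y → F b x z → y = z := fun x y z hxy hxz => h.nt.fn _ _ _ _ hxy hxz
  have hCb : C.IsChain (F b) := hch.imp (fun x y hxy => h.nt.rot _ _ _ (h.nt.rot _ _ _ hxy))
  have hCl : l = C := by
    cases l with
    | nil => simp at hl1
    | cons t T =>
      cases C with
      | nil => simp at hc0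
      | cons s S =>
        rw [List.head?_cons, Option.some.injEq] at hl1 hc0
        subst hl1
        subst hc0
        rw [eq_chain hG a T S s hl3 hCb hl2 hca hl4 hcn]
  subst hCl
  -- the last two elements of `C₁`
  have hC1 : ∃ L w, C₁ = L ++ [w, b] := by
    have hhd := h.n1.hd
    have hls := h.n1.ls
    have hab := h.n1.ab
    obtain ⟨M, hM⟩ := List.getLast?_eq_some_iff.1 hls
    rcases List.eq_nil_or_concat M with hM0 | ⟨L, w, hMw⟩
    · exfalso
      rw [hM, hM0, List.nil_append, List.head?_cons, Option.some.injEq] at hhd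
      exact hab hhd.symm
    · refine ⟨L, w, ?_⟩
      rw [hM, hMw]
      simp
  obtain ⟨L, w, hLw⟩ := hC1
  have hf' : Fan (offE E (K ∪ {c})) (offF F (K ∪ {c})) w b a := by
    have h1 := h.n1.bd
    rw [hLw] at h1
    have h2 : b :: ((L ++ [w, b]) ++ [a]) = (b :: L) ++ w :: b :: a :: [] := by simp
    rw [h2] at h1
    exact H40.tri_mid _ _ _ _ _ h1
  obtain ⟨l', hl1', hl2', hl3', hl4', hl5', -⟩ := hf'
  have hwE := (hl5' w).2 (List.mem_of_head? hl1')
  have hwl : w ∈ l := (hl5 w).1 hwE.1
  obtain ⟨Y, R, hYR⟩ := List.append_of_mem hwl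
  have hl' : l' = w :: R := by
    cases l' with
    | nil => simp at hl1'
    | cons t T =>
      rw [List.head?_cons, Option.some.injEq] at hl1'
      subst hl1'
      have h1 : (t :: T).IsChain (F b) := hl3'.imp (fun _ _ hxy => hxy.1)
      rw [hYR] at hCb hca hcn
      have h2 : (t :: R).IsChain (F b) := hCb.right_of_append
      rw [List.getLast?_append_of_ne_nil _ (by simp)] at hca
      rw [List.nodup_append] at hcn
      rw [eq_chain hG a T R t h1 h2 hl2' hca hl4' hcn.2.1]
  refine ⟨Y, w :: R, hYR, ?_, ?_⟩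
  · intro y hy
    by_contra hyK
    have h1 : y ∈ l := by rw [hYR]; exact List.mem_append_left _ hy
    have h2 : y ∈ l' := (hl5' y).1 ⟨(hl5 y).2 h1, hwE.2.1, hyK⟩
    rw [hl'] at h2
    rw [hYR, List.nodup_append] at hcn
    exact hcn.2.2 y hy y h2 rfl
  · intro y hy
    rw [← hl'] at hy
    exact ((hl5' y).2 hy).2.2

end Pool.Agent.SGL.H69
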