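import Pool.Agent.SGL.StmtsA

/-!
# Squad SGL (MP_41797f_co), row RCB
-/

noncomputable section

namespace Pool.Agent.SGL.H69

open Pool.Agent.SGE Pool.Agent.SGP Pool.Agent.SGY Pool.Agent.SGD Pool.Agent.SGL

/-- **RCB** -/
theorem rcb : RcbStmt := by
  intro V _ E Φ a z Q h hQ p q w t hpq hf n1 n2 hwt
  obtain ⟨hEpq, hEqz, hEzp, -, -⟩ := (hQ.nf p q hpq).1
  have hEzw : E z w := (hQ.st p q w hpq (Or.inl hf)).1
  have hf2 : Φ q w p := h.rot _ _ _ hf
  have hf3 : Φ w p q := h.rot _ _ _ hf2
  have hEqw : E q w := h.fe _ _ _ hf2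
  have hEwp : E w p := h.fe _ _ _ hf3
  have hqz : q ≠ z := by
    intro e
    rw [e] at hEqz
    exact h.irr _ hEqz
  have hpz : p ≠ z := by
    intro e
    rw [e] at hEzp
    exact h.irr _ hEzp
  have hpq' : p ≠ q := by
    intro e
    rw [e] at hEpq
    exact h.irr _ hEpq
  have h1 : Φ w z p := by
    by_cases hc : Φ p w z
    · exact h.rot _ _ _ hc
    · by_cases hd : Φ w p z
      · exact absurd (h.fn _ _ _ _ hf3 hd) hqz
      · exact absurd ⟨h.sym _ _ hEwp, h.sym _ _ hEzw, hEzp, hc, hd⟩ n1
  have h2 : Φ w q z := by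
    by_cases hd : Φ w q z
    · exact hd
    · by_cases hc : Φ q w z
      · exact absurd (h.fn _ _ _ _ hf2 hc) hpz
      · exact absurd ⟨hEqw, h.sym _ _ hEzw, h.sym _ _ hEqz, hc, hd⟩ n2
  obtain ⟨l, hl1, hl2, hl3⟩ := h.cyc w p hEwp
  have hl : l = [q, z] := by
    cases l with
    | nil =>
      exfalso
      rw [List.nil_append, List.isChain_cons_cons] at hl1
      exact hpq' (h.fn _ _ _ _ hl1.1 hf3)
    | cons x l =>
      rw [List.cons_append, List.isChain_cons_cons] at hl1
      have hx := h.fn _ _ _ _ hl1.1 hf3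
      subst hx
      cases l with
      | nil =>
        exfalso
        have h3 := hl1.2
        rw [List.nil_append, List.isChain_cons_cons] at h3
        exact hpz (h.fn _ _ _ _ h3.1 h2)
      | cons y l =>
        have h3 := hl1.2
        rw [List.cons_append, List.isChain_cons_cons] at h3
        have hy := h.fn _ _ _ _ h3.1 h2
        subst hy
        cases l with
        | nil => rfl
        | cons u l =>
          exfalso
          have h4 := h3.2
          rw [List.cons_append, List.isChain_cons_cons] at h4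
          have hu := h.fn _ _ _ _ h4.1 h1
          subst hu
          rw [List.nodup_cons] at hl2
          exact hl2.1 (by simp)
  have h5 := (hl3 t).1 hwt
  rw [hl] at h5
  simp only [List.mem_cons, List.not_mem_nil, or_false] at h5
  rcases h5 with h5 | h5 | h5
  · exact Or.inr ⟨q, by rw [h5]; exact hpq⟩
  · exact Or.inr ⟨p, by rw [h5]; exact hQ.sym _ _ hpq⟩
  · exact Or.inl h5

end Pool.Agent.SGL.H69
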